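import Mathlib

set_option autoImplicit false

/-! Auxiliary facts on large algebraically closed fields. -/

namespace Pool.Agent.Q271.CI

open Cardinal

theorem algIso {K κ κ' : Type} [Field K] [Field κ] [Field κ'] [Algebra K κ] [Algebra K κ']
    [IsAlgClosed κ] [IsAlgClosed κ'] (hK : #K ≤ ℵ₀) (h : ℵ₀ < #κ) (h' : #κ = #κ') :
    Nonempty (κ ≃ₐ[K] κ') := by
  obtain ⟨s, hs⟩ := exists_isTranscendenceBasis K κ
  obtain ⟨t, ht⟩ := exists_isTranscendenceBasis K κ'
  have h1 : #κ = #s := IsAlgClosed.cardinal_eq_cardinal_transcendence_basis_of_aleph0_lt' _ hs hK h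
  have h2 : #κ' = #t :=
    IsAlgClosed.cardinal_eq_cardinal_transcendence_basis_of_aleph0_lt' _ ht hK (h' ▸ h)
  have h3 : #s = #t := by rw [← h1, h', h2]
  obtain ⟨e⟩ := Cardinal.eq.mp h3
  let := IsAlgClosed.isAlgClosure_of_transcendence_basis _ hs
  let := IsAlgClosed.isAlgClosure_of_transcendence_basis _ ht
  let e0 : Algebra.adjoin K (Set.range ((↑) : s → κ)) ≃ₐ[K]
      Algebra.adjoin K (Set.range ((↑) : t → κ')) :=
    hs.1.aevalEquiv.symm.trans ((MvPolynomial.renameEquiv K e).trans ht.1.aevalEquiv)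
  let ψ := IsAlgClosure.equivOfEquiv κ κ' e0.toRingEquiv
  refine ⟨AlgEquiv.ofRingEquiv (f := ψ) ?_⟩
  intro x
  have h4 := IsAlgClosure.equivOfEquiv_algebraMap κ κ' e0.toRingEquiv
    (algebraMap K (Algebra.adjoin K (Set.range ((↑) : s → κ))) x)
  have h5 : e0.toRingEquiv (algebraMap K _ x) = algebraMap K _ x := e0.commutes x
  rw [h5] at h4
  exact h4

theorem residue_algClosed (B : ValuationSubring ℂ) :
    IsAlgClosed (IsLocalRing.ResidueField B) := by
  apply IsAlgClosed.of_exists_root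
  intro p hmon hirr
  have hl : p ∈ Polynomial.lifts (IsLocalRing.residue B) := by
    rw [Polynomial.mem_lifts]
    exact Polynomial.map_surjective _ IsLocalRing.residue_surjective p
  obtain ⟨P, hP1, hP2, hP3⟩ := Polynomial.lifts_and_natDegree_eq_and_monic hl hmon
  have hd : P.natDegree ≠ 0 := by
    rw [hP2]
    exact hirr.natDegree_pos.ne'
  have hd2 : (P.map (algebraMap B ℂ)).degree ≠ 0 := by
    rw [hP3.degree_map]
    intro h
    exact hd (Polynomial.natDegree_eq_of_degree_eq_some h)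
  obtain ⟨z, hz⟩ := IsAlgClosed.exists_root _ hd2
  have hzi : IsIntegral B z := ⟨P, hP3, by
    rw [Polynomial.IsRoot, Polynomial.eval_map] at hz
    exact hz⟩
  obtain ⟨y, hy⟩ := IsIntegrallyClosed.algebraMap_eq_of_integral hzi
  refine ⟨IsLocalRing.residue B y, ?_⟩
  have h1 : P.eval y = 0 := by
    apply (IsFractionRing.injective B ℂ)
    rw [map_zero, ← Polynomial.eval₂_at_apply, hy]
    rw [Polynomial.IsRoot, Polynomial.eval_map] at hz
    exact hz
  rw [← hP1, Polynomial.eval_map, Polynomial.eval₂_at_apply, h1, map_zero]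

theorem exists_indep (K : Subfield ℂ) (hK : #K ≤ ℵ₀) (ι : Type) [Countable ι] :
    ∃ y : ι → ℂ, AlgebraicIndependent K y := by
  obtain ⟨s, hs⟩ := exists_isTranscendenceBasis K ℂ
  have h1 : #ℂ = #s := IsAlgClosed.cardinal_eq_cardinal_transcendence_basis_of_aleph0_lt' _ hs hK
    (by rw [Cardinal.mk_complex]; exact Cardinal.aleph0_lt_continuum)
  have h2 : #ι ≤ #s := by
    rw [← h1, Cardinal.mk_complex]
    exact (Cardinal.mk_le_aleph0_iff.mpr inferInstance).trans Cardinal.aleph0_le_continuum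
  obtain ⟨e⟩ := Cardinal.le_def _ _ |>.mp h2
  exact ⟨fun i => (e i : ℂ), hs.1.comp e e.injective⟩

open scoped IntermediateField.algebraAdjoinAdjoin in
theorem exists_big (K1 : Subfield ℂ) (hK : #K1 ≤ ℵ₀) {σ : Type} [Countable σ] (x : σ → ℂ)
    (hx : AlgebraicIndependent K1 x) :
    ∃ K2 : Subfield ℂ, K1 ≤ K2 ∧ #K2 = 𝔠 ∧ AlgebraicIndependent K2 x := by
  classical
  obtain ⟨T, hT1, hT2⟩ := exists_isTranscendenceBasis_superset (R := K1) (s := Set.range x)
    hx.to_subtype_range
  have h1 : #ℂ = #T := IsAlgClosed.cardinal_eq_cardinal_transcendence_basis_of_aleph0_lt' _ hT2 hK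
    (by rw [Cardinal.mk_complex]; exact Cardinal.aleph0_lt_continuum)
  rw [Cardinal.mk_complex] at h1
  set T' : Set ℂ := T \ Set.range x with hT'
  have h2 : #T' = 𝔠 := by
    have h3 := Cardinal.mk_sdiff_add_mk hT1
    rw [← h1] at h3
    have h4 : #(Set.range x) ≤ ℵ₀ := (Set.countable_range x).le_aleph0
    have h5 : #T' ≤ 𝔠 := by rw [← h3]; exact self_le_add_right _ _
    refine le_antisymm h5 ?_
    by_contra hlt
    rw [not_le] at hlt
    have h6 := Cardinal.add_lt_of_lt Cardinal.aleph0_le_continuum hlt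
      (h4.trans_lt Cardinal.aleph0_lt_continuum)
    exact absurd h3 h6.ne
  -- independence over adjoin K1 T'
  have h7 : AlgebraicIndependent K1 (Sum.elim x (fun t : T' => (t : ℂ))) := by
    let g : σ ⊕ T' → T := Sum.elim (fun i => ⟨x i, hT1 ⟨i, rfl⟩⟩) (fun t => ⟨t, t.2.1⟩)
    have hg : Function.Injective g := by
      rintro (i | t) (j | u) h
      · have : x i = x j := congrArg Subtype.val h
        rw [hx.injective this]
      · have h8 : x i = u := congrArg Subtype.val h
        exact absurd ⟨i, h8⟩ u.2.2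
      · have h8 : (t : ℂ) = x j := congrArg Subtype.val h
        exact absurd ⟨j, h8.symm⟩ t.2.2
      · have h8 : (t : ℂ) = u := congrArg (fun z : T => (z : ℂ)) h
        rw [Subtype.ext h8]
    have h9 := hT2.1.comp g hg
    convert h9 using 1
    ext (i | t) <;> rfl
  have h8 := (AlgebraicIndependent.sumElim_iff.mp h7).2
  rw [Subtype.range_coe] at h8
  let L := IntermediateField.adjoin K1 T'
  refine ⟨L.toSubfield, ?_, ?_, ?_⟩
  · intro y hy
    exact L.algebraMap_mem ⟨y, hy⟩
  · apply le_antisymm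
    · exact (Cardinal.mk_set_le _).trans Cardinal.mk_complex.le
    · rw [← h2]
      exact Cardinal.mk_le_mk_of_subset (IntermediateField.subset_adjoin K1 T')
  · exact h8.extendScalars L

theorem exists_coeff_field {σ : Type} (P : ℕ → MvPolynomial σ ℂ) :
    ∃ K : Subfield ℂ, #K ≤ ℵ₀ ∧ ∀ j, ∃ Q : MvPolynomial σ K,
      MvPolynomial.map K.subtype Q = P j := by
  let S : Set ℂ := ⋃ j, ((P j).coeffs : Set ℂ)
  have hS : S.Countable := Set.countable_iUnion fun j => (P j).coeffs.countable_toSet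
  refine ⟨Subfield.closure S, ?_, fun j => ?_⟩
  · refine (Subfield.cardinalMk_closure_le_max S).trans ?_
    exact max_le (Cardinal.mk_le_aleph0_iff.mpr hS) le_rfl
  · have h := (MvPolynomial.mem_range_map_iff_coeffs_subset
      (f := (Subfield.closure S).subtype) (x := P j)).mpr (by
        intro c hc
        exact ⟨⟨c, Subfield.subset_closure (Set.mem_iUnion.mpr ⟨j, hc⟩)⟩, rfl⟩)
    exact h

end Pool.Agent.Q271.CI
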