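import Mathlib
import Pool.Agent.TH922.KC.Spec
import Pool.Agent.Q271.CI.Fields

set_option autoImplicit false
set_option linter.unusedSectionVars false

/-! One example suffices: curves on the very general complete intersection and on a special one. -/

namespace Pool.Agent.Q271.CI

open MvPolynomial Pool.Agent.TH922.KC

/-- `I` is the homogeneous ideal of an irreducible curve of degree `e` in `P^N`. -/
structure IsCurve {κ : Type} [Field κ] {N : ℕ} (I : Ideal (MvPolynomial (Fin (N + 1)) κ)) (e : ℕ) :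
    Prop where
  hom : ∀ p ∈ I, ∀ k : ℕ, homogeneousComponent k p ∈ I
  prime : I.IsPrime
  pos : 0 < e
  deg : ∃ K : ℕ, ∀ k : ℕ, K ≤ k → hf I (k + 1) = hf I k + e

/-- all curves on which the `f_i` vanish have degree divisible by `m` -/
def AllDiv {κ : Type} [Field κ] {N r : ℕ} (m : ℕ) (f : Fin r → MvPolynomial (Fin (N + 1)) κ) : Prop :=
  ∀ I e, IsCurve I e → (∀ i, f i ∈ I) → m ∣ e

/-- coefficients of `r` forms of degrees `d_i` -/
abbrev Coefs (N r : ℕ) (d : Fin r → ℕ) : Type := Σ i : Fin r, {μ : Fin (N + 1) →₀ ℕ // μ.degree = d i}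

/-- very general -/
def Div (N : ℕ) {r : ℕ} (d : Fin r → ℕ) (m : ℕ) : Prop :=
  ∃ bad : ℕ → MvPolynomial (Coefs N r d) ℂ, (∀ j, bad j ≠ 0) ∧
    ∀ f : Fin r → MvPolynomial (Fin (N + 1)) ℂ, (∀ i, (f i).IsHomogeneous (d i)) →
      (∀ j, MvPolynomial.eval (fun x : Coefs N r d => MvPolynomial.coeff x.2.1 (f x.1)) (bad j) ≠ 0) →
      AllDiv m f

/-- (from Pool.Agent.TH922.KC.Fin2, starting files) -/
theorem specialise {X' : Type} [Finite X'] {r : ℕ} (d : Fin r → ℕ) (K1 : Subfield ℂ)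
    (f : Fin r → MvPolynomial X' ℂ)
    (hf : ∀ i, (f i).IsHomogeneous (d i))
    (hind : AlgebraicIndependent K1
      (fun x : (Σ i : Fin r, {μ : X' →₀ ℕ // μ.degree = d i}) => coeff x.2.1 (f x.1)))
    (f0 : Fin r → MvPolynomial X' K1) (hf0 : ∀ i, (f0 i).IsHomogeneous (d i)) :
    ∃ (B : ValuationSubring ℂ) (φ1 : K1 →+* IsLocalRing.ResidueField B),
      ∀ I : Ideal (MvPolynomial X' ℂ), (∀ i, f i ∈ I) →
        ∀ i, MvPolynomial.map φ1 (f0 i) ∈ red B I := by
  classical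
  set a : (Σ i : Fin r, {μ : X' →₀ ℕ // μ.degree = d i}) → ℂ :=
    fun x => coeff x.2.1 (f x.1) with ha
  set a0 : (Σ i : Fin r, {μ : X' →₀ ℕ // μ.degree = d i}) → K1 :=
    fun x => coeff x.2.1 (f0 x.1) with ha0
  let S := Algebra.adjoin K1 (Set.range a)
  let ψ : S →ₐ[K1] K1 := (aeval a0).comp (hind.repr : S →ₐ[K1] MvPolynomial _ K1)
  have hψa : ∀ x, ψ ⟨a x, Algebra.subset_adjoin (Set.mem_range_self x)⟩ = a0 x := by
    intro x
    have h1 : hind.aevalEquiv (X x) = ⟨a x, Algebra.subset_adjoin (Set.mem_range_self x)⟩ := by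
      apply Subtype.ext
      have := hind.algebraMap_aevalEquiv (X x)
      rw [aeval_X] at this
      exact this
    have h2 : hind.repr ⟨a x, Algebra.subset_adjoin (Set.mem_range_self x)⟩ = X x := by
      rw [← h1]
      exact hind.aevalEquiv.symm_apply_apply (X x)
    change aeval a0 (hind.repr _) = _
    rw [h2, aeval_X]
  let A : Subring ℂ := S.toSubring
  let ψ' : A →+* K1 := (ψ : S →+* K1)
  have hker : RingHom.ker ψ' ≠ ⊤ := RingHom.ker_ne_top ψ'
  obtain ⟨B, hAB, hB⟩ := Ideal.image_subset_nonunits_valuationSubring (RingHom.ker ψ') hker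
  have haA : ∀ x, a x ∈ A := fun x => Algebra.subset_adjoin (Set.mem_range_self x)
  have hKA : ∀ y : K1, (y : ℂ) ∈ A := fun y => S.algebraMap_mem y
  have haB : ∀ x, a x ∈ B := fun x => hAB (haA x)
  have hKB : ∀ y : K1, (y : ℂ) ∈ B := fun y => hAB (hKA y)
  let ι1 : K1 →+* B :=
    { toFun := fun y => ⟨(y : ℂ), hKB y⟩
      map_one' := rfl
      map_mul' := fun _ _ => rfl
      map_zero' := rfl
      map_add' := fun _ _ => rfl }
  let φ1 : K1 →+* IsLocalRing.ResidueField B := (IsLocalRing.residue B).comp ι1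
  have hres : ∀ x, IsLocalRing.residue B ⟨a x, haB x⟩ = φ1 (a0 x) := by
    intro x
    have h1 : (⟨a x - (a0 x : ℂ), A.sub_mem (haA x) (hKA _)⟩ : A) ∈ RingHom.ker ψ' := by
      rw [RingHom.mem_ker]
      have e1 : (⟨a x - (a0 x : ℂ), A.sub_mem (haA x) (hKA _)⟩ : A)
          = (⟨a x, haA x⟩ : A) - ⟨(a0 x : ℂ), hKA _⟩ := rfl
      rw [e1, map_sub]
      have e2 : ψ' ⟨a x, haA x⟩ = a0 x := hψa x
      have e3 : ψ' ⟨(a0 x : ℂ), hKA _⟩ = a0 x := ψ.commutes (a0 x)
      rw [e2, e3, sub_self]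
    have h2 : (a x - (a0 x : ℂ)) ∈ B.nonunits := hB ⟨_, h1, rfl⟩
    rw [ValuationSubring.mem_nonunits_iff_exists_mem_maximalIdeal] at h2
    obtain ⟨h3, h4⟩ := h2
    rw [← sub_eq_zero]
    change IsLocalRing.residue B ⟨a x, haB x⟩ - IsLocalRing.residue B (ι1 (a0 x)) = 0
    rw [← map_sub, IsLocalRing.residue_eq_zero_iff]
    exact h4
  refine ⟨B, φ1, fun I hI i => ?_⟩
  rw [mem_red]
  refine ⟨tp X' B (d i) (fun μ => ⟨a ⟨i, μ⟩, haB _⟩), ?_, ?_⟩
  · rw [map_tp]
    have : tp X' ℂ (d i) (fun μ => B.subtype ⟨a ⟨i, μ⟩, haB _⟩) = f i := tp_coeff (d i) (hf i)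
    rw [this]
    exact hI i
  · rw [map_tp]
    have h1 : MvPolynomial.map φ1 (f0 i) = tp X' (IsLocalRing.ResidueField B) (d i)
        (fun μ => φ1 (a0 ⟨i, μ⟩)) := by
      conv_lhs => rw [← tp_coeff (d i) (hf0 i)]
      rw [map_tp]
    rw [h1]
    congr 1
    funext μ
    exact hres ⟨i, μ⟩


section general

variable {κ κ' : Type} [Field κ] [Field κ'] {N r : ℕ}

lemma grow_of_curve {I : Ideal (MvPolynomial (Fin (N + 1)) κ)} {e : ℕ} (h : IsCurve I e) :
    ∃ C : ℕ, ∀ t, hf I t ≤ C * (t + 1) := by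
  obtain ⟨K, hK⟩ := h.deg
  have h1 : ∀ j, hf I (K + j) = hf I K + j * e := by
    intro j
    induction j with
    | zero => simp
    | succ j ih =>
      rw [← add_assoc, hK (K + j) (by omega), ih]
      ring
  refine ⟨(∑ s ∈ Finset.range (K + 1), hf I s) + e, fun t => ?_⟩
  rcases le_or_gt t K with ht | ht
  · have h2 : hf I t ≤ ∑ s ∈ Finset.range (K + 1), hf I s :=
      Finset.single_le_sum (f := fun s => hf I s) (fun _ _ => Nat.zero_le _)
        (Finset.mem_range.mpr (by omega))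
    nlinarith
  · obtain ⟨j, rfl⟩ := Nat.exists_eq_add_of_le ht.le
    rw [h1 j]
    have h2 : hf I K ≤ ∑ s ∈ Finset.range (K + 1), hf I s :=
      Finset.single_le_sum (f := fun s => hf I s) (fun _ _ => Nat.zero_le _)
        (Finset.mem_range.mpr (by omega))
    have h3 : j * e ≤ e * (K + j + 1) := by nlinarith
    have h4 : (∑ s ∈ Finset.range (K + 1), hf I s) ≤
        (∑ s ∈ Finset.range (K + 1), hf I s) * (K + j + 1) :=
      Nat.le_mul_of_pos_right _ (by omega)
    nlinarith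

lemma dvd_of_allDiv {m : ℕ} {f : Fin r → MvPolynomial (Fin (N + 1)) κ} (h : AllDiv m f)
    {J : Ideal (MvPolynomial (Fin (N + 1)) κ)} (hJ : IsHom J) (hfJ : ∀ i, f i ∈ J)
    (hgr : ∃ C : ℕ, ∀ t, hf J t ≤ C * (t + 1)) :
    ∃ K : ℕ, ∀ t ≥ K, (m : ℤ) ∣ 1 * ((hf J (t + 1) : ℤ) - hf J t) := by
  refine div_of_prime m 1 (Ideal.span (Set.range f)) ?_ J hJ ?_ hgr
  · intro P hP hPp hfP hPgr
    obtain ⟨K, e, hKe⟩ := ev_lin P hP hPgr
    rcases Nat.eq_zero_or_pos e with rfl | he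
    · refine ⟨K, fun t ht => ?_⟩
      rw [hKe t ht]
      simp
    · have h1 : m ∣ e := h P e ⟨hP, hPp, he, K, hKe⟩ fun i =>
        hfP (Ideal.subset_span ⟨i, rfl⟩)
      refine ⟨K, fun t ht => ?_⟩
      rw [hKe t ht]
      push_cast
      rw [add_sub_cancel_left, one_mul]
      exact_mod_cast h1
  · rw [Ideal.span_le]
    rintro _ ⟨i, rfl⟩
    exact hfJ i

lemma hf_transport (φ : κ ≃+* κ') (I' : Ideal (MvPolynomial (Fin (N + 1)) κ')) (t : ℕ) :
    hf (I'.comap (MvPolynomial.map (φ : κ →+* κ'))) t = hf I' t := by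
  have A := hf_add (I'.comap (MvPolynomial.map (φ : κ →+* κ'))) t
  have B := hf_add I' t
  rw [finrank_H] at A B
  have h1 : ∀ p : MvPolynomial (Fin (N + 1)) κ, MvPolynomial.map (φ.symm : κ' →+* κ)
      (MvPolynomial.map (φ : κ →+* κ') p) = p := by
    intro p
    have e : (φ.symm : κ' →+* κ).comp (φ : κ →+* κ') = RingHom.id κ :=
      RingHom.ext fun x => φ.symm_apply_apply x
    rw [MvPolynomial.map_map, e, MvPolynomial.map_id]
  have h2 : ∀ p : MvPolynomial (Fin (N + 1)) κ', MvPolynomial.map (φ : κ →+* κ')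
      (MvPolynomial.map (φ.symm : κ' →+* κ) p) = p := by
    intro p
    have e : (φ : κ →+* κ').comp (φ.symm : κ' →+* κ) = RingHom.id κ' :=
      RingHom.ext fun x => φ.apply_symm_apply x
    rw [MvPolynomial.map_map, e, MvPolynomial.map_id]
  let j : KJ (I'.comap (MvPolynomial.map (φ : κ →+* κ'))) t ≃+ KJ I' t :=
    { toFun := fun p => ⟨MvPolynomial.map (φ : κ →+* κ') p.1,
        ⟨MvPolynomial.IsHomogeneous.map p.2.1 _, p.2.2⟩⟩
      invFun := fun p => ⟨MvPolynomial.map (φ.symm : κ' →+* κ) p.1,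
        ⟨MvPolynomial.IsHomogeneous.map p.2.1 _, by
          have := p.2.2
          change MvPolynomial.map (φ : κ →+* κ') (MvPolynomial.map (φ.symm : κ' →+* κ) p.1) ∈ I'
          rw [h2]
          exact this⟩⟩
      left_inv := fun p => Subtype.ext (h1 p.1)
      right_inv := fun p => Subtype.ext (h2 p.1)
      map_add' := fun p q => Subtype.ext (map_add _ _ _) }
  have h3 : Module.finrank κ (KJ (I'.comap (MvPolynomial.map (φ : κ →+* κ'))) t)
      = Module.finrank κ' (KJ I' t) := by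
    unfold Module.finrank
    congr 1
    refine rank_eq_of_equiv_equiv φ j φ.bijective ?_
    intro c p
    apply Subtype.ext
    change MvPolynomial.map (φ : κ →+* κ') (c • p.1) = φ c • MvPolynomial.map (φ : κ →+* κ') p.1
    rw [MvPolynomial.smul_eq_C_mul, MvPolynomial.smul_eq_C_mul, map_mul, map_C]
    rfl
  omega

lemma allDiv_transport (φ : κ ≃+* κ') {m : ℕ} {f : Fin r → MvPolynomial (Fin (N + 1)) κ}
    (h : AllDiv m f) : AllDiv m (fun i => MvPolynomial.map (φ : κ →+* κ') (f i)) := by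
  intro I' e hI' hfI'
  have hpr := hI'.prime
  refine h (I'.comap (MvPolynomial.map (φ : κ →+* κ'))) e ⟨?_, inferInstance, hI'.pos, ?_⟩ hfI'
  · intro p hp k
    rw [Ideal.mem_comap] at hp ⊢
    rw [map_hc]
    exact hI'.hom _ hp k
  · obtain ⟨K, hK⟩ := hI'.deg
    exact ⟨K, fun k hk => by rw [hf_transport, hf_transport]; exact hK k hk⟩

end general

open Cardinal

theorem allDiv_of_example {N r m : ℕ} (d : Fin r → ℕ) (f0 : Fin r → MvPolynomial (Fin (N + 1)) ℂ)
    (hf0 : ∀ i, (f0 i).IsHomogeneous (d i)) (h0 : AllDiv m f0) (K1 : Subfield ℂ) (hK1 : #K1 ≤ ℵ₀)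
    (g0 : Fin r → MvPolynomial (Fin (N + 1)) K1)
    (hg0 : ∀ i, MvPolynomial.map K1.subtype (g0 i) = f0 i)
    (f : Fin r → MvPolynomial (Fin (N + 1)) ℂ) (hfd : ∀ i, (f i).IsHomogeneous (d i))
    (hind : AlgebraicIndependent K1 (fun x : Coefs N r d => coeff x.2.1 (f x.1))) :
    AllDiv m f := by
  have hcσ : Countable (Coefs N r d) := inferInstance
  obtain ⟨K2, h12, hc2, hind2⟩ := exists_big K1 hK1 _ hind
  let ι12 : K1 →+* K2 := Subfield.inclusion h12
  let g2 : Fin r → MvPolynomial (Fin (N + 1)) K2 := fun i => MvPolynomial.map ι12 (g0 i)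
  have hg2 : ∀ i, (g2 i).IsHomogeneous (d i) := by
    intro i
    refine MvPolynomial.IsHomogeneous.map ?_ _
    intro μ hμ
    apply hf0 i
    rw [← hg0 i, coeff_map]
    intro h
    exact hμ (K1.subtype.injective (h.trans (map_zero _).symm))
  obtain ⟨B, φ2, hB⟩ := specialise d K2 f hfd hind2 g2 hg2
  have hac := residue_algClosed B
  have hcκ : #(IsLocalRing.ResidueField B) = 𝔠 := by
    apply le_antisymm
    · refine (Cardinal.mk_le_of_surjective (IsLocalRing.residue_surjective (R := B))).trans ?_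
      exact (Cardinal.mk_set_le _).trans Cardinal.mk_complex.le
    · rw [← hc2]
      exact Cardinal.mk_le_of_injective φ2.injective
  let _ : Algebra K1 (IsLocalRing.ResidueField B) := (φ2.comp ι12).toAlgebra
  obtain ⟨ψ⟩ := algIso (K := K1) (κ := IsLocalRing.ResidueField B) (κ' := ℂ) hK1
    (by rw [hcκ]; exact Cardinal.aleph0_lt_continuum) (by rw [hcκ, Cardinal.mk_complex])
  have h1 := allDiv_transport (ψ.symm.toRingEquiv) h0
  have h2 : ∀ i, MvPolynomial.map (ψ.symm.toRingEquiv : ℂ →+* IsLocalRing.ResidueField B) (f0 i)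
      = MvPolynomial.map φ2 (g2 i) := by
    intro i
    rw [← hg0 i, MvPolynomial.map_map, MvPolynomial.map_map]
    have e : (ψ.symm.toRingEquiv : ℂ →+* IsLocalRing.ResidueField B).comp K1.subtype
        = φ2.comp ι12 := RingHom.ext fun x => ψ.symm.commutes x
    rw [e]
  intro I e hI hfI
  have h3 : ∀ i, MvPolynomial.map (ψ.symm.toRingEquiv : ℂ →+* IsLocalRing.ResidueField B) (f0 i)
      ∈ red B I := by
    intro i
    rw [h2]
    exact hB I hfI i
  obtain ⟨C, hC⟩ := grow_of_curve hI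
  obtain ⟨K, hK⟩ := dvd_of_allDiv h1 (red_hom B hI.hom) h3
    ⟨C, fun t => by rw [red_hf B hI.hom]; exact hC t⟩
  obtain ⟨K', hK'⟩ := hI.deg
  have h4 := hK (max K K') (le_max_left _ _)
  rw [red_hf B hI.hom, red_hf B hI.hom, hK' _ (le_max_right _ _)] at h4
  push_cast at h4
  rw [add_sub_cancel_left, one_mul] at h4
  exact_mod_cast h4

end Pool.Agent.Q271.CI
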