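import Mathlib
import Pool.Agent.Q271.CI.Exa

set_option autoImplicit false
set_option linter.unusedSectionVars false

namespace Pool.Agent.Q271.CI

open MvPolynomial Pool.Agent.TH922.KC Cardinal

/-- one example suffices -/
theorem div_of_example {N r m : ℕ} (d : Fin r → ℕ) (f0 : Fin r → MvPolynomial (Fin (N + 1)) ℂ)
    (hf0 : ∀ i, (f0 i).IsHomogeneous (d i)) (h0 : AllDiv m f0) : Div N d m := by
  classical
  obtain ⟨K1, hK1, hQ⟩ := exists_coeff_field (fun j => if h : j < r then f0 ⟨j, h⟩ else 0)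
  choose Q hQ using hQ
  have hg0 : ∀ i : Fin r, MvPolynomial.map K1.subtype (Q i) = f0 i := by
    intro i
    have := hQ i
    rwa [dif_pos i.2] at this
  have hcount : Countable K1 := Cardinal.mk_le_aleph0_iff.mp hK1
  have hcp : Countable (MvPolynomial (Coefs N r d) K1) := by
    rw [← Cardinal.mk_le_aleph0_iff]
    refine MvPolynomial.cardinalMk_le_max.trans ?_
    simp only [max_le_iff, le_refl, and_true]
    exact ⟨hK1, Cardinal.mk_le_aleph0_iff.mpr inferInstance⟩
  have hne : Nonempty {p : MvPolynomial (Coefs N r d) K1 // p ≠ 0} := ⟨⟨1, one_ne_zero⟩⟩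
  obtain ⟨en, hen⟩ := exists_surjective_nat {p : MvPolynomial (Coefs N r d) K1 // p ≠ 0}
  refine ⟨fun j => MvPolynomial.map K1.subtype (en j).1, fun j => ?_, ?_⟩
  · have h1 := (en j).2
    intro h
    exact h1 ((map_eq_zero_iff _ (MvPolynomial.map_injective _ K1.subtype.injective)).mp h)
  intro f hfh hbad
  refine allDiv_of_example d f0 hf0 h0 K1 hK1 (fun i => Q i) hg0 f hfh ?_
  rw [algebraicIndependent_iff]
  intro p hp
  by_contra hp0
  obtain ⟨l, hl⟩ := hen ⟨p, hp0⟩
  apply hbad l
  change MvPolynomial.eval _ (MvPolynomial.map K1.subtype (en l).1) = 0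
  rw [hl, MvPolynomial.eval_map]
  exact hp

/-- very general forms: algebraically independent coefficients over a countable field -/
theorem gen_of_div {N r m : ℕ} {d : Fin r → ℕ} (h : Div N d m) :
    ∃ K0 : Subfield ℂ, #K0 ≤ ℵ₀ ∧ ∀ K : Subfield ℂ, K0 ≤ K →
      ∀ f : Fin r → MvPolynomial (Fin (N + 1)) ℂ, (∀ i, (f i).IsHomogeneous (d i)) →
        AlgebraicIndependent K (fun x : Coefs N r d => coeff x.2.1 (f x.1)) → AllDiv m f := by
  obtain ⟨bad, hb, hd⟩ := h
  obtain ⟨K0, hK0, hQ⟩ := exists_coeff_field bad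
  choose Q hQ using hQ
  refine ⟨K0, hK0, fun K hK f hf hind => hd f hf fun j h0 => ?_⟩
  have h1 : MvPolynomial.map (Subfield.inclusion hK) (Q j) ≠ 0 := by
    intro h
    apply hb j
    rw [← hQ j]
    have h2 : MvPolynomial.map K0.subtype (Q j)
        = MvPolynomial.map K.subtype (MvPolynomial.map (Subfield.inclusion hK) (Q j)) := by
      rw [MvPolynomial.map_map]
      rfl
    rw [h2, h, map_zero]
  apply h1
  rw [algebraicIndependent_iff] at hind
  apply hind
  rw [← h0, ← hQ j, MvPolynomial.eval_map, MvPolynomial.aeval_def, MvPolynomial.eval₂_map]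
  rfl

/-- forms with given coefficients -/
noncomputable def frm (N a : ℕ) (y : (Fin (N + 1) →₀ ℕ) → ℂ) : MvPolynomial (Fin (N + 1)) ℂ :=
  tp (Fin (N + 1)) ℂ a (fun μ => y μ.1)

lemma frm_hom (N a : ℕ) (y : (Fin (N + 1) →₀ ℕ) → ℂ) : (frm N a y).IsHomogeneous a := tp_hom _ _

lemma coeff_frm (N a : ℕ) (y : (Fin (N + 1) →₀ ℕ) → ℂ) (μ : Fin (N + 1) →₀ ℕ)
    (h : μ.degree = a) : coeff μ (frm N a y) = y μ := by
  rw [frm, coeff_tp, dif_pos h]

theorem exists_of_div {N r m : ℕ} {d : Fin r → ℕ} (h : Div N d m) :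
    ∃ f : Fin r → MvPolynomial (Fin (N + 1)) ℂ, (∀ i, (f i).IsHomogeneous (d i)) ∧ AllDiv m f := by
  obtain ⟨K0, hK0, hd⟩ := gen_of_div h
  obtain ⟨y, hy⟩ := exists_indep K0 hK0 (Fin r × (Fin (N + 1) →₀ ℕ))
  refine ⟨fun i => frm N (d i) (fun μ => y (i, μ)), fun i => frm_hom _ _ _, ?_⟩
  refine hd K0 le_rfl _ (fun i => frm_hom _ _ _) ?_
  have h1 := hy.comp (fun x : Coefs N r d => (x.1, x.2.1)) (by
    rintro ⟨i, μ, hμ⟩ ⟨j, ν, hν⟩ h
    simp only [Prod.mk.injEq] at h
    obtain ⟨rfl, rfl⟩ := h
    rfl)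
  convert h1 using 1
  ext x
  exact coeff_frm _ _ _ _ x.2.2

theorem div_add {N r m : ℕ} (d : Fin r → ℕ) (c : Fin r) (a b : ℕ)
    (ha : Div N (Function.update d c a) m) (hb : Div N (Function.update d c b) m) :
    Div N (Function.update d c (a + b)) m := by
  classical
  obtain ⟨K0, hK0, hd0⟩ := gen_of_div ha
  obtain ⟨K0', hK0', hd0'⟩ := gen_of_div hb
  let K : Subfield ℂ := Subfield.closure ((K0 : Set ℂ) ∪ K0')
  have hK : #K ≤ ℵ₀ := by
    refine (Subfield.cardinalMk_closure_le_max _).trans (max_le ?_ le_rfl)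
    rw [Cardinal.le_aleph0_iff_set_countable]
    exact (Cardinal.le_aleph0_iff_set_countable.mp hK0).union
      (Cardinal.le_aleph0_iff_set_countable.mp hK0')
  have h1 : K0 ≤ K := fun x hx => Subfield.subset_closure (Or.inl hx)
  have h2 : K0' ≤ K := fun x hx => Subfield.subset_closure (Or.inr hx)
  obtain ⟨y, hy⟩ := exists_indep K hK (Fin r × Bool × (Fin (N + 1) →₀ ℕ))
  let F1 : Fin r → MvPolynomial (Fin (N + 1)) ℂ := fun i =>
    frm N (Function.update d c a i) (fun μ => y (i, false, μ))
  let F2 : Fin r → MvPolynomial (Fin (N + 1)) ℂ := fun i =>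
    frm N (Function.update d c b i) (fun μ => y (i, decide (i = c), μ))
  have hF1 : AllDiv m F1 := by
    refine hd0 K h1 _ (fun i => frm_hom _ _ _) ?_
    have h3 := hy.comp (fun x : Coefs N r (Function.update d c a) => (x.1, false, x.2.1)) (by
      rintro ⟨i, μ, hμ⟩ ⟨j, ν, hν⟩ h
      simp only [Prod.mk.injEq, true_and] at h
      obtain ⟨rfl, rfl⟩ := h
      rfl)
    convert h3 using 1
    ext x
    exact coeff_frm _ _ _ _ x.2.2
  have hF2 : AllDiv m F2 := by
    refine hd0' K h2 _ (fun i => frm_hom _ _ _) ?_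
    have h3 := hy.comp (fun x : Coefs N r (Function.update d c b) =>
      (x.1, decide (x.1 = c), x.2.1)) (by
      rintro ⟨i, μ, hμ⟩ ⟨j, ν, hν⟩ h
      simp only [Prod.mk.injEq] at h
      obtain ⟨rfl, -, rfl⟩ := h
      rfl)
    convert h3 using 1
    ext x
    exact coeff_frm _ _ _ _ x.2.2
  refine div_of_example _ (fun i => if i = c then F1 c * F2 c else F1 i) ?_ ?_
  · intro i
    by_cases h : i = c
    · subst h
      simp only [if_true, Function.update_self]
      have h3 : (F1 i * F2 i).IsHomogeneous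
          (Function.update d i a i + Function.update d i b i) := (frm_hom _ _ _).mul (frm_hom _ _ _)
      rwa [Function.update_self, Function.update_self] at h3
    · simp only [if_neg h, Function.update_of_ne h]
      have h3 : (F1 i).IsHomogeneous (Function.update d c a i) := frm_hom _ _ _
      rwa [Function.update_of_ne h] at h3
  · intro I e hI hfI
    have hc := hfI c
    simp only [if_true] at hc
    rcases hI.prime.mem_or_mem hc with h | h
    · refine hF1 I e hI fun i => ?_
      by_cases hi : i = c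
      · subst hi; exact h
      · have := hfI i
        simpa only [if_neg hi] using this
    · refine hF2 I e hI fun i => ?_
      by_cases hi : i = c
      · subst hi; exact h
      · have h3 := hfI i
        simp only [if_neg hi] at h3
        have h4 : F2 i = F1 i := by
          simp only [F1, F2, hi, decide_false, Function.update_of_ne (h := hi)]
        rw [h4]
        exact h3

end Pool.Agent.Q271.CI
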