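import Mathlib
import Pool.Agent.Q271.CI.Steps

set_option autoImplicit false
set_option linter.unusedSectionVars false

namespace Pool.Agent.Q271.CI

open MvPolynomial Pool.Agent.TH922.KC Cardinal

section hyp

variable {N : ℕ}

/-- restriction to the last coordinate hyperplane -/
noncomputable def rst (N : ℕ) : MvPolynomial (Fin (N + 1 + 1)) ℂ →ₐ[ℂ] MvPolynomial (Fin (N + 1)) ℂ :=
  aeval (Fin.lastCases 0 (fun i => X i))

lemma rst_castSucc (i : Fin (N + 1)) : rst N (X i.castSucc) = X i := by
  simp [rst]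

lemma rst_last : rst N (X (Fin.last (N + 1))) = 0 := by
  simp [rst]

lemma rst_rename (p : MvPolynomial (Fin (N + 1)) ℂ) : rst N (rename Fin.castSucc p) = p := by
  have h : (rst N).comp (rename Fin.castSucc) = AlgHom.id ℂ _ := by
    ext i : 1
    simp [rst]
  exact congrArg (fun g => g p) h

lemma sub_mem (I : Ideal (MvPolynomial (Fin (N + 1 + 1)) ℂ)) (hX : X (Fin.last (N + 1)) ∈ I)
    (p : MvPolynomial (Fin (N + 1 + 1)) ℂ) : p - rename Fin.castSucc (rst N p) ∈ I := by
  rw [← Ideal.Quotient.eq_zero_iff_mem, map_sub, sub_eq_zero]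
  have h : Ideal.Quotient.mkₐ ℂ I = ((Ideal.Quotient.mkₐ ℂ I).comp (rename Fin.castSucc)).comp
      (rst N) := by
    ext i : 1
    refine Fin.lastCases ?_ (fun j => ?_) i
    · simp only [AlgHom.comp_apply, rst_last, map_zero]
      exact Ideal.Quotient.eq_zero_iff_mem.mpr hX
    · simp only [AlgHom.comp_apply, rst_castSucc, rename_X]
  exact congrArg (fun g => g p) h

lemma rst_hc (p : MvPolynomial (Fin (N + 1 + 1)) ℂ) (k : ℕ) :
    homogeneousComponent k (rst N p) = rst N (homogeneousComponent k p) := by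
  classical
  have hhom : ∀ (j : ℕ) (q : MvPolynomial (Fin (N + 1 + 1)) ℂ), q.IsHomogeneous j →
      (rst N q).IsHomogeneous j := by
    intro j q hq
    have h := hq.aeval (fun i : Fin (N + 1 + 1) =>
      (Fin.lastCases 0 (fun i => X i) i : MvPolynomial (Fin (N + 1)) ℂ)) (n := 1) (by
        intro i
        refine Fin.lastCases ?_ (fun j => ?_) i
        · simp only [Fin.lastCases_last]
          exact isHomogeneous_zero _ _ _
        · simp only [Fin.lastCases_castSucc]
          exact isHomogeneous_X _ _)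
    rwa [one_mul] at h
  conv_lhs => rw [← sum_homogeneousComponent p, map_sum, map_sum]
  have h1 : ∀ i, homogeneousComponent k (rst N (homogeneousComponent i p))
      = if i = k then rst N (homogeneousComponent k p) else 0 := by
    intro i
    rw [homogeneousComponent_of_mem (hhom i _ (homogeneousComponent_isHomogeneous i p))]
    split_ifs with h2 h3 h3
    · rw [h2]
    · exact absurd h2.symm h3
    · exact absurd h3.symm h2
    · rfl
  simp only [h1]
  rw [Finset.sum_ite_eq']
  split_ifs with h2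
  · rfl
  · rw [Finset.mem_range, not_lt] at h2
    rw [homogeneousComponent_eq_zero _ _ (by omega), map_zero]

lemma hf_castSucc (I : Ideal (MvPolynomial (Fin (N + 1 + 1)) ℂ)) (hX : X (Fin.last (N + 1)) ∈ I)
    (t : ℕ) : hf (I.comap (rename Fin.castSucc :
      MvPolynomial (Fin (N + 1)) ℂ →ₐ[ℂ] MvPolynomial (Fin (N + 1 + 1)) ℂ)) t = hf I t := by
  set I0 := I.comap (rename Fin.castSucc :
      MvPolynomial (Fin (N + 1)) ℂ →ₐ[ℂ] MvPolynomial (Fin (N + 1 + 1)) ℂ) with hI0
  let q : (MvPolynomial (Fin (N + 1)) ℂ ⧸ I0) →ₐ[ℂ] (MvPolynomial (Fin (N + 1 + 1)) ℂ ⧸ I) :=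
    Ideal.quotientMapₐ I (rename Fin.castSucc) le_rfl
  have hq : Function.Injective q := by
    exact Ideal.quotientMap_injective
  have hq2 : ∀ p, q (Ideal.Quotient.mk I0 p) = Ideal.Quotient.mk I (rename Fin.castSucc p) :=
    fun p => rfl
  have h1 : (Submodule.map (Ideal.Quotient.mkₐ ℂ I0).toLinearMap
      (homogeneousSubmodule (Fin (N + 1)) ℂ t)).map q.toLinearMap
      = Submodule.map (Ideal.Quotient.mkₐ ℂ I).toLinearMap
      (homogeneousSubmodule (Fin (N + 1 + 1)) ℂ t) := by
    apply le_antisymm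
    · rintro _ ⟨_, ⟨p, hp, rfl⟩, rfl⟩
      exact ⟨rename Fin.castSucc p, IsHomogeneous.rename_isHomogeneous hp, rfl⟩
    · rintro _ ⟨p, hp, rfl⟩
      have hp' : p.IsHomogeneous t := hp
      refine ⟨Ideal.Quotient.mk I0 (rst N p), ⟨rst N p, ?_, rfl⟩, ?_⟩
      · have h2 := rst_hc p t
        rw [homogeneousComponent_eq_self hp'] at h2
        change (rst N p).IsHomogeneous t
        rw [← h2]
        exact homogeneousComponent_isHomogeneous _ _
      · change Ideal.Quotient.mk I (rename Fin.castSucc (rst N p)) = Ideal.Quotient.mk I p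
        rw [Ideal.Quotient.eq, ← neg_sub]
        exact I.neg_mem (sub_mem I hX p)
  unfold hf
  rw [← h1]
  exact (LinearEquiv.finrank_eq (Submodule.equivMapOfInjective q.toLinearMap hq _))

lemma curve_castSucc {I : Ideal (MvPolynomial (Fin (N + 1 + 1)) ℂ)} {e : ℕ}
    (hX : X (Fin.last (N + 1)) ∈ I) (h : IsCurve I e) :
    IsCurve (I.comap (rename Fin.castSucc :
      MvPolynomial (Fin (N + 1)) ℂ →ₐ[ℂ] MvPolynomial (Fin (N + 1 + 1)) ℂ)) e := by
  have hpr := h.prime
  refine ⟨?_, inferInstance, h.pos, ?_⟩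
  · intro p hp k
    rw [Ideal.mem_comap] at hp ⊢
    rw [rename_homogeneousComponent]
    exact h.hom _ hp k
  · obtain ⟨K, hK⟩ := h.deg
    exact ⟨K, fun k hk => by rw [hf_castSucc I hX, hf_castSucc I hX]; exact hK k hk⟩

lemma curve_rst {I : Ideal (MvPolynomial (Fin (N + 1)) ℂ)} {e : ℕ} (h : IsCurve I e) :
    IsCurve (I.comap (rst N)) e := by
  have hpr := h.prime
  have hX : X (Fin.last (N + 1)) ∈ I.comap (rst N) := by
    rw [Ideal.mem_comap, rst_last]
    exact I.zero_mem
  have h1 : ∀ t, hf (I.comap (rst N)) t = hf I t := by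
    intro t
    rw [← hf_castSucc _ hX t]
    congr 1
    ext p
    rw [Ideal.mem_comap, Ideal.mem_comap, rst_rename]
  refine ⟨?_, inferInstance, h.pos, ?_⟩
  · intro p hp k
    rw [Ideal.mem_comap] at hp ⊢
    rw [← rst_hc]
    exact h.hom _ hp k
  · obtain ⟨K, hK⟩ := h.deg
    exact ⟨K, fun k hk => by rw [h1, h1]; exact hK k hk⟩

end hyp

/-- one more hypersurface, one more dimension of the ambient space -/
theorem div_insert {N r m : ℕ} (d : Fin (r + 1) → ℕ) (p : Fin (r + 1))
    (h : Div N (fun j => d (p.succAbove j)) m) : Div (N + 1) d m := by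
  obtain ⟨g, hg, hgm⟩ := exists_of_div h
  refine div_of_example (N := N + 1) d
    (p.insertNth (X (Fin.last (N + 1)) ^ (d p)) (fun j => rename Fin.castSucc (g j))) ?_ ?_
  · rw [p.forall_iff_succAbove]
    constructor
    · rw [Fin.insertNth_apply_same]
      exact isHomogeneous_X_pow _ _
    · intro j
      rw [Fin.insertNth_apply_succAbove]
      exact IsHomogeneous.rename_isHomogeneous (hg j)
  · intro I e hI hfI
    have h1 := hfI p
    rw [Fin.insertNth_apply_same] at h1
    have hX := hI.prime.mem_of_pow_mem _ h1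
    refine hgm _ e (curve_castSucc hX hI) fun j => ?_
    have h2 := hfI (p.succAbove j)
    rw [Fin.insertNth_apply_succAbove] at h2
    exact h2

/-- hyperplane sections -/
theorem div_section {N r m : ℕ} (d : Fin r → ℕ) (h : Div (N + 1) d m) : Div N d m := by
  obtain ⟨g, hg, hgm⟩ := exists_of_div h
  refine div_of_example d (fun i => rst N (g i)) ?_ ?_
  · intro i
    have h2 := rst_hc (g i) (d i)
    rw [homogeneousComponent_eq_self (hg i)] at h2
    rw [← h2]
    exact homogeneousComponent_isHomogeneous _ _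
  · intro I e hI hfI
    exact hgm _ e (curve_rst hI) fun i => hfI i

end Pool.Agent.Q271.CI
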