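import Mathlib
import Pool.Agent.Q271.CI.Hyp

set_option autoImplicit false
set_option linter.unusedSectionVars false

namespace Pool.Agent.Q271.CI

open MvPolynomial Pool.Agent.TH922.KC Cardinal

theorem div_all {N r : ℕ} {d : Fin r → ℕ} (m : ℕ → ℕ) (h : ∀ j, Div N d (m j)) (M : ℕ)
    (hM : ∀ e, (∀ j, m j ∣ e) → M ∣ e) : Div N d M := by
  choose bad hb hd using h
  refine ⟨fun k => bad (Nat.unpair k).1 (Nat.unpair k).2, fun k => hb _ _, ?_⟩
  intro f hf hbad I e hI hfI
  refine hM e fun j => hd j f hf (fun l => ?_) I e hI hfI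
  have h1 := hbad (Nat.pair j l)
  simpa only [Nat.unpair_pair] using h1

theorem div_sub {n s r m : ℕ} (d : Fin r → ℕ) (ι : Fin s → Fin r) (hι : StrictMono ι)
    (h : Div (n + s) (fun j => d (ι j)) m) : Div (n + r) d m := by
  induction r generalizing s with
  | zero =>
    have hs : s = 0 := by
      rcases Nat.eq_zero_or_pos s with h | h
      · exact h
      · exact (ι ⟨0, h⟩).elim0
    subst hs
    have e : (fun j => d (ι j)) = d := by
      ext j; exact j.elim0
    rwa [e] at h
  | succ r ih =>
    by_cases hsur : Function.Surjective ι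
    · have hs : s = r + 1 := by
        have := Fintype.card_of_bijective ⟨hι.injective, hsur⟩
        simpa using this
      subst hs
      have e : (fun j => d (ι j)) = d := by
        have h1 : ι = id := by
          let ε : Fin (r + 1) ≃o Fin (r + 1) := StrictMono.orderIsoOfSurjective ι hι hsur
          have h2 : ε = OrderIso.refl _ := Subsingleton.elim _ _
          ext j
          have h3 := congrArg (fun g : Fin (r + 1) ≃o Fin (r + 1) => (g j : ℕ)) h2
          exact h3
        rw [h1]; rfl
      rwa [e] at h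
    · simp only [Function.Surjective, not_forall, not_exists] at hsur
      obtain ⟨p, hp⟩ := hsur
      have h1 : ∀ j, ∃ k, p.succAbove k = ι j := fun j => Fin.exists_succAbove_eq (hp j)
      choose ι' hι' using h1
      have h2 : StrictMono ι' := by
        intro a b hab
        rw [← (Fin.strictMono_succAbove p).lt_iff_lt, hι', hι']
        exact hι hab
      refine div_insert d p (ih (fun j => d (p.succAbove j)) ι' h2 ?_)
      simpa only [hι'] using h

theorem closure_tuples {N r m : ℕ} (A : Fin r → Set ℕ)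
    (h : ∀ d : Fin r → ℕ, (∀ i, d i ∈ A i) → Div N d m) (s : Finset (Fin r)) :
    ∀ d : Fin r → ℕ, (∀ i ∈ s, d i ∈ AddSubmonoid.closure (A i) ∧ 0 < d i) →
      (∀ i ∉ s, d i ∈ A i) → Div N d m := by
  classical
  induction s using Finset.induction_on with
  | empty => intro d _ h2; exact h d (fun i => h2 i (by simp))
  | insert c s hc ih =>
    intro d h1 h2
    have key : ∀ u ∈ AddSubmonoid.closure (A c), u = 0 ∨ Div N (Function.update d c u) m := by
      intro u hu
      induction hu using AddSubmonoid.closure_induction with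
      | mem u hu =>
        right
        apply ih
        · intro i hi
          have hic : i ≠ c := fun e => hc (e ▸ hi)
          rw [Function.update_of_ne hic]
          exact h1 i (Finset.mem_insert_of_mem hi)
        · intro i hi
          by_cases e : i = c
          · subst e
            rw [Function.update_self]
            exact hu
          · rw [Function.update_of_ne e]
            exact h2 i (by simp [e, hi])
      | zero => left; rfl
      | add a b _ _ ha hb =>
        rcases ha with rfl | ha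
        · rw [zero_add]; exact hb
        rcases hb with rfl | hb
        · rw [add_zero]; right; exact ha
        right
        exact div_add d c a b ha hb
    have h3 := h1 c (Finset.mem_insert_self _ _)
    rcases key (d c) h3.1 with h | h
    · exact absurd h h3.2.ne'
    · rwa [Function.update_eq_self] at h

theorem large_tuples {N r m : ℕ} (A : Fin r → Set ℕ)
    (h : ∀ d : Fin r → ℕ, (∀ i, d i ∈ A i) → Div N d m) :
    ∃ D : ℕ, ∀ d : Fin r → ℕ, (∀ i, Nat.setGcd (A i) ∣ d i ∧ D ≤ d i) → Div N d m := by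
  classical
  have h1 : ∀ i, ∃ n, ∀ k ≥ n, Nat.setGcd (A i) ∣ k → k ∈ AddSubmonoid.closure (A i) :=
    fun i => Nat.exists_mem_closure_of_ge (A i)
  choose n hn using h1
  refine ⟨(∑ i, n i) + 1, fun d hd => ?_⟩
  refine closure_tuples A h Finset.univ d (fun i _ => ⟨?_, ?_⟩) (fun i hi => absurd (Finset.mem_univ i) hi)
  · refine hn i _ ?_ (hd i).1
    have h2 : n i ≤ ∑ i, n i := Finset.single_le_sum (fun _ _ => Nat.zero_le _) (Finset.mem_univ i)
    have h3 := (hd i).2
    omega
  · have h3 := (hd i).2
    omega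

theorem zero_one {N r m : ℕ} (q : Fin r → ℕ) :
    (∃ D : ℕ, ∀ d : Fin r → ℕ, (∀ i, q i ∣ d i ∧ D ≤ d i) → Div N d m) ∨
    ∀ Y : ℕ, Y ^ r ≤ Nat.card {c : Fin r → Fin (2 * Y) //
      ¬ Div N (fun i => q i * ((c i : ℕ) + 1)) m} := by
  classical
  by_cases hfirst : ∃ D : ℕ, ∀ d : Fin r → ℕ, (∀ i, q i ∣ d i ∧ D ≤ d i) → Div N d m
  · exact Or.inl hfirst
  right
  intro Y
  have h1 : ∀ b : Fin r → Fin Y, ∃ c : Fin r → Fin (2 * Y), (∀ i, (c i : ℕ) / 2 = b i) ∧
      ¬ Div N (fun i => q i * ((c i : ℕ) + 1)) m := by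
    intro b
    by_contra hcon
    push Not at hcon
    apply hfirst
    let A : Fin r → Set ℕ := fun i => {q i * (2 * (b i : ℕ) + 1), q i * (2 * (b i : ℕ) + 2)}
    obtain ⟨D, hD⟩ := large_tuples (N := N) (m := m) A (by
      intro d hd
      have h2 : ∀ i, ∃ c : Fin (2 * Y), (c : ℕ) / 2 = b i ∧ d i = q i * ((c : ℕ) + 1) := by
        intro i
        have hb := (b i).2
        rcases hd i with h3 | h3
        · exact ⟨⟨2 * b i, by omega⟩, by simp, h3⟩
        · refine ⟨⟨2 * b i + 1, by omega⟩, by simp only; omega, ?_⟩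
          rw [h3]
      choose c hc1 hc2 using h2
      have h4 := hcon c hc1
      have h5 : d = fun i => q i * ((c i : ℕ) + 1) := funext hc2
      rw [h5]
      exact h4)
    refine ⟨D, fun d hd => hD d fun i => ⟨?_, (hd i).2⟩⟩
    refine dvd_trans ?_ (hd i).1
    have h6 : Nat.setGcd (A i) ∣ q i * (2 * (b i : ℕ) + 1) :=
      Nat.setGcd_dvd_of_mem (by simp [A])
    have h7 : Nat.setGcd (A i) ∣ q i * (2 * (b i : ℕ) + 2) :=
      Nat.setGcd_dvd_of_mem (by simp [A])
    have h8 := Nat.dvd_sub h7 h6
    have h9 : q i * (2 * (b i : ℕ) + 2) - q i * (2 * (b i : ℕ) + 1) = q i := by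
      rw [← Nat.mul_sub]
      have : 2 * (b i : ℕ) + 2 - (2 * (b i : ℕ) + 1) = 1 := by omega
      rw [this, mul_one]
    rwa [h9] at h8
  choose c hc1 hc2 using h1
  have h2 : Nat.card (Fin r → Fin Y) = Y ^ r := by simp
  rw [← h2]
  refine Nat.card_le_card_of_injective (fun b => ⟨c b, hc2 b⟩) ?_
  intro b b' hbb
  have h3 : c b = c b' := congrArg Subtype.val hbb
  funext i
  apply Fin.ext
  rw [← hc1 b i, ← hc1 b' i, h3]

theorem one_prime {n r D : ℕ}
    (h : ∀ p : ℕ, p.Prime → ∀ s ≤ r, ∀ d : Fin s → ℕ, (∀ i, p ∣ d i ∧ D < d i) →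
      Div (n + s) d (p ^ (∏ i, d i).factorization p))
    (d : Fin r → ℕ) (hd : ∀ i, D < d i) : Div (n + r) d (∏ i, d i) := by
  classical
  have hd0 : ∀ i, d i ≠ 0 := fun i => by have := hd i; omega
  have hP : ∏ i, d i ≠ 0 := Finset.prod_ne_zero_iff.mpr fun i _ => hd0 i
  refine div_all (fun p => if p.Prime then p ^ (∏ i, d i).factorization p else 1) ?_ _ ?_
  · intro p
    split_ifs with hp
    swap
    · exact ⟨fun _ => 1, fun _ => one_ne_zero, fun f _ _ I e _ _ => one_dvd _⟩
    let S : Finset (Fin r) := Finset.univ.filter fun i => p ∣ d i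
    let ι := S.orderEmbOfFin rfl
    have h1 := h p hp S.card (by simpa using Finset.card_le_univ S) (fun j => d (ι j)) (fun j =>
      ⟨(Finset.mem_filter.mp (S.orderEmbOfFin_mem rfl j)).2, hd _⟩)
    have h2 : ∏ j, d (ι j) = ∏ i ∈ S, d i := by
      have h2' : ∏ i ∈ Finset.univ.image ι, d i = ∏ j, d (ι j) :=
        Finset.prod_image (fun a _ b _ h => ι.injective h)
      rw [← h2']
      congr 1
      exact Finset.image_orderEmbOfFin_univ S rfl
    have h3 : (∏ i ∈ S, d i).factorization p = (∏ i, d i).factorization p := by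
      rw [← Finset.prod_filter_mul_prod_filter_not Finset.univ (fun i => p ∣ d i)]
      rw [Nat.factorization_mul (Finset.prod_ne_zero_iff.mpr fun i _ => hd0 i)
        (Finset.prod_ne_zero_iff.mpr fun i _ => hd0 i)]
      rw [Finsupp.add_apply]
      have h4 : (∏ i ∈ Finset.univ.filter (fun i => ¬ p ∣ d i), d i).factorization p = 0 := by
        apply Nat.factorization_eq_zero_of_not_dvd
        intro h5
        obtain ⟨i, hi, h6⟩ := (Prime.dvd_finsetProd_iff hp.prime _).mp h5
        exact (Finset.mem_filter.mp hi).2 h6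
      rw [h4, add_zero]
    rw [h2, h3] at h1
    exact div_sub d ι ι.strictMono h1
  · intro e he
    rw [Nat.dvd_iff_prime_pow_dvd_dvd]
    intro p k hp hk
    have h1 := he p
    rw [if_pos hp] at h1
    exact (pow_dvd_pow p ((hp.pow_dvd_iff_le_factorization hP).mp hk)).trans h1

theorem coprime_tuples {n r : ℕ} (d : Fin r → ℕ)
    (hc : ∀ i j, i ≠ j → Nat.Coprime (d i) (d j))
    (h : ∀ i, Div (n + 1) (fun _ : Fin 1 => d i) (d i)) : Div (n + r) d (∏ i, d i) := by
  classical
  have h1 : ∀ i, Div (n + r) d (d i) := fun i =>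
    div_sub (s := 1) d (fun _ => i) (fun a b hab => absurd hab (by
      have := Subsingleton.elim a b; rw [this]; exact lt_irrefl _)) (h i)
  refine div_all (fun j => if h : j < r then d ⟨j, h⟩ else 1) ?_ _ ?_
  · intro j
    split_ifs with hj
    · exact h1 _
    · exact ⟨fun _ => 1, fun _ => one_ne_zero, fun f _ _ I e _ _ => one_dvd _⟩
  · intro e he
    refine Finset.prod_dvd_of_isRelPrime ?_ ?_
    · intro i _ j _ hij
      exact Nat.coprime_iff_isRelPrime.mp (hc i j hij)
    · intro i _
      have h2 := he i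
      rw [dif_pos i.2] at h2
      exact h2

end Pool.Agent.Q271.CI
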