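import Mathlib
import Pool.Agent.Q271.CI.Comb

set_option autoImplicit false
set_option linter.unusedSectionVars false

namespace Pool.Agent.Q271.CI

open MvPolynomial Pool.Agent.TH922.KC Cardinal

theorem fail_below {N r m : ℕ} (q k : Fin r → ℕ)
    (hno : ¬ Div N (fun i => q i * (k i + 1)) m) (hq : ∀ i, 0 < q i) :
    ∏ i, k i ≤ 2 ^ r * Nat.card {c : (i : Fin r) → Fin (k i) //
      ¬ Div N (fun i => q i * ((c i : ℕ) + 1)) m} := by
  classical
  let fl : Finset (Fin r) → ((i : Fin r) → Fin (k i)) → ((i : Fin r) → Fin (k i)) :=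
    fun T c i => if i ∈ T then (c i).rev else c i
  have hfl : ∀ T c, fl T (fl T c) = c := by
    intro T c
    funext i
    by_cases h : i ∈ T
    · simp only [fl, if_pos h, Fin.rev_rev]
    · simp only [fl, if_neg h]
  have key : ∀ c : (i : Fin r) → Fin (k i), ∃ T : Finset (Fin r),
      ¬ Div N (fun i => q i * ((fl T c i : ℕ) + 1)) m := by
    intro c
    by_contra hcon
    push Not at hcon
    apply hno
    let A : Fin r → Set ℕ := fun i => {q i * ((c i : ℕ) + 1), q i * (((c i).rev : ℕ) + 1)}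
    refine closure_tuples A ?_ Finset.univ _ (fun i _ => ⟨?_, Nat.mul_pos (hq i) (Nat.succ_pos _)⟩)
      (fun i hi => absurd (Finset.mem_univ i) hi)
    · intro d hd
      have h4 := hcon (Finset.univ.filter fun i => d i ≠ q i * ((c i : ℕ) + 1))
      have h5 : d = fun i => q i *
          ((fl (Finset.univ.filter fun i => d i ≠ q i * ((c i : ℕ) + 1)) c i : ℕ) + 1) := by
        funext i
        by_cases h : d i = q i * ((c i : ℕ) + 1)
        · have h6 : i ∉ Finset.univ.filter fun i => d i ≠ q i * ((c i : ℕ) + 1) := by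
            simp [h]
          simp only [fl, if_neg h6]
          exact h
        · have h6 : i ∈ Finset.univ.filter fun i => d i ≠ q i * ((c i : ℕ) + 1) := by
            simp [h]
          simp only [fl, if_pos h6]
          exact (hd i).resolve_left h
      rw [h5]
      exact h4
    · have h7 : q i * (k i + 1) = q i * ((c i : ℕ) + 1) + q i * (((c i).rev : ℕ) + 1) := by
        rw [← Nat.mul_add, Fin.val_rev]
        congr 1
        have := (c i).2
        omega
      rw [h7]
      exact AddSubmonoid.add_mem _ (AddSubmonoid.subset_closure (Or.inl rfl))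
        (AddSubmonoid.subset_closure (Or.inr rfl))
  choose T hT using key
  have h2 : Nat.card ((i : Fin r) → Fin (k i)) = ∏ i, k i := by
    rw [Nat.card_pi]
    simp
  have h3 : Nat.card (Finset (Fin r) × {c : (i : Fin r) → Fin (k i) //
      ¬ Div N (fun i => q i * ((c i : ℕ) + 1)) m}) = 2 ^ r * Nat.card {c : (i : Fin r) → Fin (k i) //
      ¬ Div N (fun i => q i * ((c i : ℕ) + 1)) m} := by
    rw [Nat.card_prod]
    congr 1
    simp
  rw [← h2, ← h3]
  refine Nat.card_le_card_of_injective (fun c => (T c, ⟨fl (T c) c, hT c⟩)) ?_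
  intro c c' hcc
  simp only [Prod.mk.injEq, Subtype.mk.injEq] at hcc
  obtain ⟨h4, h5⟩ := hcc
  rw [← hfl (T c) c, h5, h4, hfl]

theorem corners {N r m : ℕ} (x y : Fin r → ℕ)
    (h : ∀ T : Finset (Fin r), Div N (fun i => if i ∈ T then x i else y i) m) :
    ∃ D : ℕ, ∀ d : Fin r → ℕ, (∀ i, Nat.gcd (x i) (y i) ∣ d i ∧ D ≤ d i) → Div N d m := by
  classical
  obtain ⟨D, hD⟩ := large_tuples (N := N) (m := m) (fun i => ({x i, y i} : Set ℕ)) (by
    intro d hd
    have h1 := h (Finset.univ.filter fun i => d i = x i)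
    have h2 : d = fun i => if i ∈ Finset.univ.filter (fun i => d i = x i) then x i else y i := by
      funext i
      by_cases h3 : d i = x i
      · have h4 : i ∈ Finset.univ.filter fun i => d i = x i := by simp [h3]
        rw [if_pos h4]
        exact h3
      · have h4 : i ∉ Finset.univ.filter fun i => d i = x i := by simp [h3]
        rw [if_neg h4]
        exact (hd i).resolve_left h3
    rw [h2]
    exact h1)
  refine ⟨D, fun d hd => hD d fun i => ⟨?_, (hd i).2⟩⟩
  exact (Nat.dvd_gcd (Nat.setGcd_dvd_of_mem (by simp)) (Nat.setGcd_dvd_of_mem (by simp))).trans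
    (hd i).1

/-- the literal form -/
theorem literal {N r m : ℕ} {d : Fin r → ℕ} (h : Div N d m) :
    ∃ bad : ℕ → MvPolynomial (Coefs N r d) ℂ, (∀ j, bad j ≠ 0) ∧
      ∀ f : Fin r → MvPolynomial (Fin (N + 1)) ℂ, (∀ i, (f i).IsHomogeneous (d i)) →
        (∀ j, MvPolynomial.eval (fun x : Coefs N r d => MvPolynomial.coeff x.2.1 (f x.1)) (bad j) ≠ 0) →
        ∀ I : Ideal (MvPolynomial (Fin (N + 1)) ℂ),
          (∀ p ∈ I, ∀ k : ℕ, homogeneousComponent k p ∈ I) → I.IsPrime →
          ringKrullDim (MvPolynomial (Fin (N + 1)) ℂ ⧸ I) = 2 → (∀ i, f i ∈ I) →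
          ∃ K : ℕ, ∀ k : ℕ, K ≤ k → (m : ℤ) ∣ (hf I (k + 1) : ℤ) - (hf I k : ℤ) := by
  obtain ⟨bad, hb, hd⟩ := h
  refine ⟨bad, hb, fun f hf hbad I hI hIp hdim hfI => ?_⟩
  obtain ⟨C, hC⟩ := growth2 I hI hdim.le
  obtain ⟨K, e, hKe⟩ := ev_lin I hI ⟨C, hC⟩
  refine ⟨K, fun k hk => ?_⟩
  rw [hKe k hk]
  push_cast
  rw [add_sub_cancel_left]
  rcases Nat.eq_zero_or_pos e with rfl | he
  · simp
  · exact_mod_cast hd f hf hbad I e ⟨hI, hIp, he, K, hKe⟩ hfI

end Pool.Agent.Q271.CI
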