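import Mathlib
import Pool.Agent.Q271.CI.Loc

set_option autoImplicit false
set_option linter.unusedSectionVars false

namespace Pool.Agent.Q271.CI

open MvPolynomial Pool.Agent.TH922.KC Cardinal

lemma card_It (k : ℕ) : (k + 1) * (k + 1) ≤ Fintype.card (It (Fin 3) (2 * k)) := by
  have h : Fintype.card (Fin (k + 1) × Fin (k + 1)) ≤ Fintype.card (It (Fin 3) (2 * k)) := by
    refine Fintype.card_le_of_injective (fun p => ⟨Finsupp.equivFunOnFinite.symm
      ![(p.1 : ℕ), (p.2 : ℕ), 2 * k - p.1 - p.2], ?_⟩) ?_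
    · rw [Finsupp.degree_eq_sum, Fin.sum_univ_three]
      simp only [Finsupp.equivFunOnFinite_symm_apply_apply, Matrix.cons_val_zero,
        Matrix.cons_val_one, Matrix.cons_val_two]
      have h1 := p.1.2
      have h2 := p.2.2
      simp
      omega
    · rintro ⟨a, b⟩ ⟨a', b'⟩ h
      have h1 := congrArg Subtype.val h
      simp only at h1
      have h2 := Finsupp.equivFunOnFinite.symm.injective h1
      have h3 := congrFun h2 0
      have h4 := congrFun h2 1
      simp only [Matrix.cons_val_zero, Matrix.cons_val_one] at h3 h4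
      rw [Prod.mk.injEq]
      exact ⟨Fin.ext h3, Fin.ext h4⟩
  simpa using h

theorem dim_le_two {N : ℕ} (I : Ideal (MvPolynomial (Fin (N + 1)) ℂ)) (hp : I.IsPrime)
    (hgr : ∃ C : ℕ, ∀ t, hf I t ≤ C * (t + 1)) :
    ringKrullDim (MvPolynomial (Fin (N + 1)) ℂ ⧸ I) ≤ 2 := by
  classical
  obtain ⟨s, g, hinj, hint⟩ := exists_integral_inj_algHom_of_fg ℂ
    (MvPolynomial (Fin (N + 1)) ℂ ⧸ I)
  let _ : Algebra (MvPolynomial (Fin s) ℂ) (MvPolynomial (Fin (N + 1)) ℂ ⧸ I) :=
    g.toRingHom.toAlgebra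
  have hI : Algebra.IsIntegral (MvPolynomial (Fin s) ℂ) (MvPolynomial (Fin (N + 1)) ℂ ⧸ I) :=
    ⟨hint⟩
  have h1 : ringKrullDim (MvPolynomial (Fin (N + 1)) ℂ ⧸ I)
      ≤ ringKrullDim (MvPolynomial (Fin s) ℂ) := by
    refine Order.krullDim_le_of_strictMono (PrimeSpectrum.comap (algebraMap
      (MvPolynomial (Fin s) ℂ) (MvPolynomial (Fin (N + 1)) ℂ ⧸ I))) ?_
    intro P Q hPQ
    exact Ideal.IsIntegral.comap_lt_comap hPQ
  rw [MvPolynomial.ringKrullDim_of_isNoetherianRing, ringKrullDim_eq_zero_of_field, zero_add,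
    Nat.card_fin] at h1
  refine h1.trans ?_
  have h2 : s ≤ 2 := by
    by_contra hs
    push Not at hs
    have hy : AlgebraicIndependent ℂ (fun i : Fin s => g (X i)) := by
      have e : (aeval (fun i : Fin s => g (X i)) : MvPolynomial (Fin s) ℂ →ₐ[ℂ] _) = g := by
        ext i; simp
      rw [AlgebraicIndependent, e]
      exact hinj
    let x : Fin (N + 1) → MvPolynomial (Fin (N + 1)) ℂ ⧸ I := fun i => Ideal.Quotient.mk I (X i)
    have hadj : Algebra.adjoin ℂ (Set.range x) = ⊤ := by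
      rw [Algebra.adjoin_range_eq_range_aeval, ← top_le_iff]
      intro a _
      obtain ⟨p, rfl⟩ := Ideal.Quotient.mk_surjective a
      refine ⟨p, ?_⟩
      have e : (aeval x : MvPolynomial (Fin (N + 1)) ℂ →ₐ[ℂ] _) = Ideal.Quotient.mkₐ ℂ I := by
        ext i; simp [x]
      exact congrArg (fun q => q p) e
    have halg : Algebra.IsAlgebraic (Algebra.adjoin ℂ (Set.range x))
        (MvPolynomial (Fin (N + 1)) ℂ ⧸ I) := by
      refine ⟨fun a => ?_⟩
      have ha : a ∈ Algebra.adjoin ℂ (Set.range x) := by rw [hadj]; trivial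
      exact isAlgebraic_algebraMap (⟨a, ha⟩ : Algebra.adjoin ℂ (Set.range x))
    obtain ⟨u, hu, hub⟩ := exists_isTranscendenceBasis_subset (R := ℂ) (Set.range x)
    have h3 : #(Fin s) ≤ #u := by
      rw [hub.cardinalMk_eq_trdeg]
      exact hy.cardinalMk_le_trdeg
    have h4 : #(Fin 3) ≤ #u := by
      refine le_trans ?_ h3
      rw [Cardinal.mk_fin, Cardinal.mk_fin]
      exact_mod_cast hs
    obtain ⟨v⟩ := (Cardinal.le_def _ _).mp h4
    have hw : ∀ i : Fin 3, ∃ j, x j = v i := fun i => hu (v i).2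
    choose w hw using hw
    have hwi : AlgebraicIndependent ℂ (fun i : Fin 3 => x (w i)) := by
      have := hub.1.comp v v.injective
      convert this using 1
      ext i
      exact hw i
    obtain ⟨C, hC⟩ := hgr
    have h5 : ∀ t, Fintype.card (It (Fin 3) t) ≤ hf I t := by
      intro t
      rw [← finrank_H (κ := ℂ) (X := Fin 3) t]
      have hL : Function.Injective (aeval (fun i : Fin 3 => x (w i)) :
        MvPolynomial (Fin 3) ℂ →ₐ[ℂ] MvPolynomial (Fin (N + 1)) ℂ ⧸ I).toLinearMap := hwi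
      rw [(Submodule.equivMapOfInjective _ hL (homogeneousSubmodule (Fin 3) ℂ t)).finrank_eq]
      have hfin : Module.Finite ℂ (Submodule.map (Ideal.Quotient.mkₐ ℂ I).toLinearMap
        (homogeneousSubmodule (Fin (N + 1)) ℂ t)) := inferInstance
      refine Submodule.finrank_mono ?_
      rintro _ ⟨p, hp, rfl⟩
      refine ⟨rename w p, IsHomogeneous.rename_isHomogeneous hp, ?_⟩
      have e : (aeval (fun i : Fin 3 => x (w i)) : MvPolynomial (Fin 3) ℂ →ₐ[ℂ] _)
          = (Ideal.Quotient.mkₐ ℂ I).comp (rename w) := by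
        ext i; simp [x]
      exact (congrArg (fun q => q p) e).symm
    have h6 := (card_It (2 * C)).trans ((h5 _).trans (hC _))
    nlinarith
  exact_mod_cast h2

theorem dim_eq_two {N : ℕ} {I : Ideal (MvPolynomial (Fin (N + 1)) ℂ)} {e : ℕ} (h : IsCurve I e) :
    ringKrullDim (MvPolynomial (Fin (N + 1)) ℂ ⧸ I) = 2 := by
  have hp := h.prime
  have h1 := dim_le_two I h.prime (grow_of_curve h)
  have h2 : ¬ ringKrullDim (MvPolynomial (Fin (N + 1)) ℂ ⧸ I) ≤ 1 := by
    intro h2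
    obtain ⟨C, hC⟩ := growth1 I h.hom h2
    obtain ⟨K, hK⟩ := h.deg
    have h3 : ∀ j, hf I (K + j) = hf I K + j * e := by
      intro j
      induction j with
      | zero => simp
      | succ j ih =>
        rw [← add_assoc, hK (K + j) (by omega), ih]
        ring
    have h4 := hC (K + (C + 1))
    rw [h3] at h4
    have h5 := h.pos
    nlinarith
  rw [not_le] at h2
  refine le_antisymm h1 ?_
  generalize ringKrullDim (MvPolynomial (Fin (N + 1)) ℂ ⧸ I) = a at h2
  induction a with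
  | bot => exact absurd h2 (not_lt_of_ge bot_le)
  | coe b =>
    have h3 : (1 : ℕ∞) < b := by exact_mod_cast h2
    have h4 : (1 : ℕ∞) + 1 ≤ b := Order.add_one_le_of_lt h3
    have h5 : (2 : ℕ∞) ≤ b := by
      rw [show (2 : ℕ∞) = 1 + 1 by norm_num]; exact h4
    exact WithBot.coe_le_coe.mpr h5

theorem div_of_literal {N r m : ℕ} {d : Fin r → ℕ}
    (h : ∃ bad : ℕ → MvPolynomial (Coefs N r d) ℂ, (∀ j, bad j ≠ 0) ∧
      ∀ f : Fin r → MvPolynomial (Fin (N + 1)) ℂ, (∀ i, (f i).IsHomogeneous (d i)) →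
        (∀ j, MvPolynomial.eval (fun x : Coefs N r d => MvPolynomial.coeff x.2.1 (f x.1)) (bad j) ≠ 0) →
        ∀ I : Ideal (MvPolynomial (Fin (N + 1)) ℂ),
          (∀ p ∈ I, ∀ k : ℕ, homogeneousComponent k p ∈ I) → I.IsPrime →
          ringKrullDim (MvPolynomial (Fin (N + 1)) ℂ ⧸ I) = 2 → (∀ i, f i ∈ I) →
          ∃ K : ℕ, ∀ k : ℕ, K ≤ k → (m : ℤ) ∣ (hf I (k + 1) : ℤ) - (hf I k : ℤ)) : Div N d m := by
  obtain ⟨bad, hb, hd⟩ := h
  refine ⟨bad, hb, fun f hf hbad I e hI hfI => ?_⟩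
  obtain ⟨K, hK⟩ := hd f hf hbad I hI.hom hI.prime (dim_eq_two hI) hfI
  obtain ⟨K', hK'⟩ := hI.deg
  have h1 := hK (max K K') (le_max_left _ _)
  rw [hK' _ (le_max_right _ _)] at h1
  push_cast at h1
  rw [add_sub_cancel_left] at h1
  exact_mod_cast h1

end Pool.Agent.Q271.CI
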