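import Mathlib
import Pool.Agent.Q271.CI.Dim
import Pool.Agent.TH922.KC.Fin2

set_option autoImplicit false
set_option linter.unusedSectionVars false

namespace Pool.Agent.Q271.CI

open MvPolynomial Pool.Agent.TH922.KC Cardinal

/-- from Kollár's theorem in the form of the starting files -/
theorem kollar_base {n r : ℕ} (d : Fin r → ℕ) (p : ℕ) (hp : p.Prime) (b : ℕ) (i0 : Fin r)
    (h : p ^ (n * (b + n)) ∣ d i0) : Div (n + r) d (p ^ b) := by
  classical
  apply div_of_literal
  obtain ⟨bad, hb, hd⟩ := Pool.Agent.TH922.KC.main n r d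
  refine ⟨bad, hb, fun f hf hbad I hI hIp hdim hfI => ?_⟩
  obtain ⟨K, hK⟩ := hd f (fun i => hf i) hbad I hI hIp hdim hfI p (b + n) n hp (by
    have h1 : 1 ≤ (Finset.univ.filter fun i => p ^ (n * (b + n)) ∣ d i).card :=
      Finset.card_pos.mpr ⟨i0, by simp [h]⟩
    have h2 : n + 1 ≤ p ^ (n + 1) := (Nat.lt_pow_self hp.one_lt).le
    calc n ≤ 1 * (p ^ (n + 1) - 1) := by omega
      _ ≤ _ := Nat.mul_le_mul_right _ h1)
  refine ⟨K, fun k hk => ?_⟩
  have h3 := hK k hk
  rw [pow_add, mul_comm (p ^ b)] at h3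
  push_cast at h3 ⊢
  exact (mul_dvd_mul_iff_left (by exact_mod_cast (pow_pos hp.pos n).ne')).mp h3

theorem div_one' {N r : ℕ} (d : Fin r → ℕ) : Div N d 1 :=
  ⟨fun _ => 1, fun _ => one_ne_zero, fun _ _ _ _ _ _ _ => one_dvd _⟩

theorem base_any {n r : ℕ} (d : Fin r → ℕ) (m : ℕ) (hm : 0 < m) (i0 : Fin r)
    (h : m ^ (n * (m + n)) ∣ d i0) : Div (n + r) d m := by
  classical
  refine div_all (fun p => if p.Prime then p ^ m.factorization p else 1) ?_ _ ?_
  · intro p
    split_ifs with hp
    swap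
    · exact div_one' d
    rcases Nat.eq_zero_or_pos (m.factorization p) with h0 | h0
    · rw [h0, pow_zero]
      exact div_one' d
    · refine kollar_base d p hp _ i0 (dvd_trans ?_ h)
      have h1 : (p ^ m.factorization p) ^ (n * (m + n)) ∣ m ^ (n * (m + n)) :=
        pow_dvd_pow_of_dvd (Nat.ordProj_dvd m p) _
      refine dvd_trans ?_ h1
      rw [← pow_mul]
      apply pow_dvd_pow
      have h2 : m.factorization p + n ≤ m.factorization p * (m + n) := by nlinarith
      calc n * (m.factorization p + n) ≤ n * (m.factorization p * (m + n)) :=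
            Nat.mul_le_mul_left _ h2
        _ = m.factorization p * (n * (m + n)) := by ring
  · intro e he
    rw [Nat.dvd_iff_prime_pow_dvd_dvd]
    intro p k hp hk
    have h1 := he p
    rw [if_pos hp] at h1
    exact (pow_dvd_pow p ((hp.pow_dvd_iff_le_factorization hm.ne').mp hk)).trans h1

/-- `2^r` examples suffice, with an explicit bound -/
theorem corners_explicit {N r m : ℕ} (x y : Fin r → ℕ)
    (h : ∀ T : Finset (Fin r), Div N (fun i => if i ∈ T then x i else y i) m)
    (d' : Fin r → ℕ) (hd' : ∀ i, Nat.gcd (x i) (y i) ∣ d' i ∧ x i * y i ≤ d' i ∧ 0 < d' i) :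
    Div N d' m := by
  classical
  refine closure_tuples (fun i => ({x i, y i} : Set ℕ)) ?_ Finset.univ d' (fun i _ => ⟨?_, (hd' i).2.2⟩)
    (fun i hi => absurd (Finset.mem_univ i) hi)
  · intro d hd
    have h1 := h (Finset.univ.filter fun i => d i = x i)
    have h2 : d = fun i => if i ∈ Finset.univ.filter (fun i => d i = x i) then x i else y i := by
      funext i
      by_cases h3 : d i = x i
      · have h4 : i ∈ Finset.univ.filter fun i => d i = x i := by simp [h3]
        rw [if_pos h4]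
        exact h3
      · have h4 : i ∉ Finset.univ.filter fun i => d i = x i := by simp [h3]
        rw [if_neg h4]
        exact (hd i).resolve_left h3
    rw [h2]
    exact h1
  · obtain ⟨u, v, huv⟩ := Nat.exists_add_mul_eq_of_gcd_dvd_of_mul_pred_le (x i) (y i) (d' i)
      (hd' i).1 ((Nat.mul_le_mul (Nat.pred_le _) (Nat.pred_le _)).trans (hd' i).2.1)
    rw [← huv]
    have hx : x i ∈ AddSubmonoid.closure ({x i, y i} : Set ℕ) :=
      AddSubmonoid.subset_closure (Set.mem_insert _ _)
    have hy : y i ∈ AddSubmonoid.closure ({x i, y i} : Set ℕ) :=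
      AddSubmonoid.subset_closure (Set.mem_insert_of_mem _ rfl)
    refine AddSubmonoid.add_mem _ ?_ ?_
    · rw [← smul_eq_mul]
      exact nsmul_mem hx u
    · rw [← smul_eq_mul]
      exact nsmul_mem hy v

/-- **All or nothing.** -/
theorem all_or_nothing {n r m : ℕ} (hm : 0 < m) (d : Fin r → ℕ) (h : Div (n + r) d m)
    (d' : Fin r → ℕ) (hd' : ∀ i, Nat.gcd (d i) (m ^ (n * (m + n))) ∣ d' i ∧
      d i * m ^ (n * (m + n)) ≤ d' i ∧ 0 < d' i) : Div (n + r) d' m := by
  classical
  refine corners_explicit d (fun _ => m ^ (n * (m + n))) (fun T => ?_) d' hd'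
  by_cases hT : ∀ i, i ∈ T
  · simpa only [hT, if_true] using h
  · push Not at hT
    obtain ⟨i, hi⟩ := hT
    refine base_any _ m hm i ?_
    rw [if_neg hi]

theorem all_or_nothing_prime {n r : ℕ} (p b : ℕ) (hp : p.Prime) (a : Fin r → ℕ)
    (d : Fin r → ℕ) (hd : ∀ i, 0 < d i ∧ (d i).factorization p = a i)
    (f : Fin r → MvPolynomial (Fin (n + r + 1)) ℂ) (hf : ∀ i, (f i).IsHomogeneous (d i))
    (h : AllDiv (p ^ b) f) (d' : Fin r → ℕ)
    (hd' : ∀ i, p ^ a i ∣ d' i ∧ d i * p ^ (n * (b + n)) ≤ d' i) :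
    Div (n + r) d' (p ^ b) := by
  classical
  refine corners_explicit d (fun _ => p ^ (n * (b + n))) (fun T => ?_) d' fun i => ⟨?_, (hd' i).2, ?_⟩
  · by_cases hT : ∀ i, i ∈ T
    · simp only [hT, if_true]
      exact div_of_example d f hf h
    · push Not at hT
      obtain ⟨i, hi⟩ := hT
      refine kollar_base _ p hp b i ?_
      rw [if_neg hi]
  · refine dvd_trans ?_ (hd' i).1
    obtain ⟨c, -, hc⟩ := (Nat.dvd_prime_pow hp).mp
      (Nat.gcd_dvd_right (d i) (p ^ (n * (b + n))))
    rw [hc]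
    apply pow_dvd_pow
    rw [← (hd i).2]
    refine (hp.pow_dvd_iff_le_factorization (hd i).1.ne').mp ?_
    rw [← hc]
    exact Nat.gcd_dvd_left _ _
  · exact lt_of_lt_of_le (Nat.mul_pos (hd i).1 (pow_pos hp.pos _)) (hd' i).2

/-- **Criterion: one example for every prime and all exponents.** -/
theorem weak_criterion {n r : ℕ}
    (h : ∀ p : ℕ, p.Prime → ∀ s ≤ r, ∀ a : Fin s → ℕ, (∀ i, 0 < a i) →
      ∃ d : Fin s → ℕ, (∀ i, 0 < d i ∧ (d i).factorization p = a i) ∧
        ∃ f : Fin s → MvPolynomial (Fin (n + s + 1)) ℂ, (∀ i, (f i).IsHomogeneous (d i)) ∧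
          AllDiv (p ^ ∑ i, a i) f)
    (q : Fin r → ℕ) (hq : ∀ i, 0 < q i) :
    ∃ D : ℕ, ∀ d : Fin r → ℕ, (∀ i, q i ∣ d i ∧ D ≤ d i) → Div (n + r) d (∏ i, q i) := by
  classical
  have hq0 : ∏ i, q i ≠ 0 := Finset.prod_ne_zero_iff.mpr fun i _ => (hq i).ne'
  have key : ∀ p : ℕ, ∃ D : ℕ, p.Prime → ∀ d : Fin r → ℕ, (∀ i, q i ∣ d i ∧ D ≤ d i) →
      Div (n + r) d (p ^ (∏ i, q i).factorization p) := by
    intro p
    by_cases hp : p.Prime
    swap
    · exact ⟨0, fun h => absurd h hp⟩
    let S : Finset (Fin r) := Finset.univ.filter fun i => p ∣ q i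
    let ι := S.orderEmbOfFin rfl
    have hι : ∀ j, p ∣ q (ι j) := fun j => (Finset.mem_filter.mp (S.orderEmbOfFin_mem rfl j)).2
    obtain ⟨d0, hd0, f, hf, hfd⟩ := h p hp S.card (by simpa using Finset.card_le_univ S)
      (fun j => (q (ι j)).factorization p)
      (fun j => hp.factorization_pos_of_dvd (hq _).ne' (hι j))
    have hD := all_or_nothing_prime p _ hp _ d0 hd0 f hf hfd
    refine ⟨(∑ j, d0 j) * p ^ (n * (∑ j, (q (ι j)).factorization p + n)), fun _ d hd => ?_⟩
    have h1 := hD (fun j => d (ι j)) fun j =>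
      ⟨(Nat.ordProj_dvd (q (ι j)) p).trans (hd _).1, le_trans (Nat.mul_le_mul_right _
        (Finset.single_le_sum (f := fun j => d0 j) (fun _ _ => Nat.zero_le _)
          (Finset.mem_univ j))) (hd _).2⟩
    have h2 := div_sub d ι ι.strictMono h1
    have h3 : ∑ j, (q (ι j)).factorization p = (∏ i, q i).factorization p := by
      have h4 : ∑ i ∈ Finset.univ.image ι, (q i).factorization p
          = ∑ j, (q (ι j)).factorization p :=
        Finset.sum_image (fun a _ b _ h => ι.injective h)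
      rw [← h4, Finset.image_orderEmbOfFin_univ S rfl,
        Nat.factorization_prod_apply fun i _ => (hq i).ne']
      refine Finset.sum_subset (Finset.subset_univ _) fun i _ hi => ?_
      apply Nat.factorization_eq_zero_of_not_dvd
      intro hpi
      exact hi (Finset.mem_filter.mpr ⟨Finset.mem_univ i, hpi⟩)
    rwa [h3] at h2
  choose D hD using key
  refine ⟨∑ p ∈ (∏ i, q i).primeFactors, D p, fun d hd => ?_⟩
  refine div_all (fun p => if p.Prime then p ^ (∏ i, q i).factorization p else 1) ?_ _ ?_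
  · intro p
    split_ifs with hp
    swap
    · exact div_one' d
    by_cases hpq : p ∣ ∏ i, q i
    · refine hD p hp d fun i => ⟨(hd i).1, le_trans ?_ (hd i).2⟩
      exact Finset.single_le_sum (f := fun p => D p) (fun _ _ => Nat.zero_le _)
        (Nat.mem_primeFactors.mpr ⟨hp, hpq, hq0⟩)
    · rw [Nat.factorization_eq_zero_of_not_dvd hpq, pow_zero]
      exact div_one' d
  · intro e he
    rw [Nat.dvd_iff_prime_pow_dvd_dvd]
    intro p k hp hk
    have h1 := he p
    rw [if_pos hp] at h1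
    exact (pow_dvd_pow p ((hp.pow_dvd_iff_le_factorization hq0).mp hk)).trans h1

end Pool.Agent.Q271.CI
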